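import Pool.Agent.Helper82.BR.St

namespace Pool.Agent.Helper9.BR

open Pool.Agent.Helper82.BR

theorem hFC : StFC := by
  intro S h2 h7 h
  have hcard : S.offDiag.card =
      18 * (S.offDiag.image (fun x : ℂ × ℂ => dist x.1 x.2)).card := by
    rw [Finset.card_eq_sum_card_image (fun x : ℂ × ℂ => dist x.1 x.2) S.offDiag]
    rw [Finset.sum_congr rfl (g := fun _ => 18)]
    · rw [Finset.sum_const, smul_eq_mul, mul_comm]
    · intro b hb
      obtain ⟨x, hx, rfl⟩ := Finset.mem_image.mp hb
      obtain ⟨hx1, hx2, hx3⟩ := Finset.mem_offDiag.mp hx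
      exact h x.2 hx2 x.1 hx1 hx3
  rw [Finset.offDiag_card] at hcard
  generalize (S.offDiag.image (fun x : ℂ × ℂ => dist x.1 x.2)).card = m at hcard
  generalize S.card = n at h2 h7 hcard
  interval_cases n <;> omega

end Pool.Agent.Helper9.BR
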